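import Pool.Agent.H20.ZO.Glb
import Pool.Agent.H20.RT.Hdr
import Pool.Agent.H24.VP.PosB
import Pool.Agent.H24.VP.Two
import Pool.Agent.H24.VP.Nef

/-!
# [H32 ZO Hod] THEOREM Z0 (MP_e49dc9_ag): the form `T N . .` of a nef divisor `N`

`nn_twoN`: two prime divisors.  `hdg_N`: Hodge.  `zero_prm`: `T N A S = 0` implies `T N G S = 0`.  `light`: light cone.  `eff_prm`: an effective class is a sum of primes for `T U V .`.
-/

set_option autoImplicit false

namespace Pool.Agent.H32.ZO

open Pool.Agent.H54.RV Pool.Agent.H83.TU Pool.Agent.H83.TK Pool.Agent.H20.TD Pool.Agent.H20.TP Pool.Agent.H24.VP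

variable {k K : Type} [Field k] [Field K] [Algebra k K] {X : Mod k K}
  {T : Cart X → Cart X → Cart X → ℝ} {l : Cart X → ℝ} {c : ℝ}

/-- a linear function of `n` which is nonnegative for all `n` -/
theorem lin_nn {a b : ℝ} (h : ∀ n : ℕ, 0 ≤ a + n * b) : 0 ≤ b := by
  by_contra hb
  push Not at hb
  obtain ⟨n, hn⟩ := exists_nat_gt (a / -b)
  rw [div_lt_iff₀ (by linarith)] at hn
  have := h n
  linarith

/-- a quadratic function of `n` which is nonpositive for all large `n` -/
theorem quad_np {a b q : ℝ} {n₀ : ℕ} (h : ∀ n : ℕ, n₀ ≤ n → a + n * b + n ^ 2 * q ≤ 0) : q ≤ 0 := by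
  by_contra hq
  push Not at hq
  obtain ⟨m, hm⟩ := exists_nat_gt ((|a| + |b|) / q)
  rw [div_lt_iff₀ hq] at hm
  have hn := h (max n₀ (m + 1)) (le_max_left _ _)
  obtain ⟨n, hne⟩ : ∃ n, n = max n₀ (m + 1) := ⟨_, rfl⟩
  rw [← hne] at hn
  have hn1 : (m : ℝ) + 1 ≤ n := by
    rw [hne]
    exact_mod_cast le_max_right n₀ (m + 1)
  have hm0 : (0 : ℝ) ≤ m := Nat.cast_nonneg m
  have h1 : -(|a| * n) ≤ a := by
    have h2 := neg_abs_le a
    have h3 : |a| * 1 ≤ |a| * n := mul_le_mul_of_nonneg_left (by linarith) (abs_nonneg a)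
    linarith
  have h2 : -(|b| * n) ≤ n * b := by
    have h3 := mul_le_mul_of_nonneg_left (neg_abs_le b) (show (0 : ℝ) ≤ n by linarith)
    linarith
  have h3 : (|a| + |b|) * n < n ^ 2 * q := by
    have h4 : (|a| + |b|) * n < m * q * n := mul_lt_mul_of_pos_right hm (by linarith)
    have h5 : m * q * n ≤ n * q * n := by
      have : (m : ℝ) * q ≤ n * q := mul_le_mul_of_nonneg_right (by linarith) hq.le
      exact mul_le_mul_of_nonneg_right this (by linarith)
    have h6 : (n : ℝ) * q * n = n ^ 2 * q := by ring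
    linarith
  linarith

theorem nn_twoN [CharZero k] [T0Space X.P] (h : Hyp X) (hr : RR T l c) {N : Cart X} (hN : Nf N) (P P' : PDiv X)
    {S S' : Cart X} (hS : SPr X P.η S) (hS' : SPr X P'.η S') (hne : P.η ≠ P'.η) : 0 ≤ T N S S' := by
  obtain ⟨A, hA⟩ := h.amp
  have h1 : 0 ≤ T S S' N := by
    refine lin_nn (a := T S S' A) fun n => ?_
    have h2 := nn_two h hr (nf_pow hA hN n) P P' hS hS' hne
    rwa [hr.tri.add3, hr.tri.pow3] at h2
  rwa [hr.tri.s23, hr.tri.s12] at h1

theorem hdg_N [CharZero k] [T0Space X.P] (h : Hyp X) (hr : RR T l c) {N : Cart X} (hN : Nf N) (L E : Cart X)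
    (hL : 0 < T N L L) : T N L L * T N E E ≤ T N L E ^ 2 := by
  obtain ⟨A, hA⟩ := h.amp
  have r : ∀ U V : Cart X, T U V N = T N U V := fun U V => by rw [hr.tri.s23, hr.tri.s12]
  obtain ⟨n₀, hn₀⟩ := exists_nat_gt (|T L L A| / T N L L)
  rw [div_lt_iff₀ hL] at hn₀
  have key : ∀ n : ℕ, n₀ ≤ n → (T L L A * T E E A - T L E A ^ 2) +
      n * (T L L A * T N E E + T N L L * T E E A - 2 * T L E A * T N L E) +
      n ^ 2 * (T N L L * T N E E - T N L E ^ 2) ≤ 0 := by
    intro n hn
    have hH := nf_pow hA hN n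
    have e : ∀ U V : Cart X, T U V (A * N ^ n) = T U V A + n * T N U V := fun U V => by
      rw [hr.tri.add3, hr.tri.pow3, r]
    have hpos : 0 < T L L (A * N ^ n) := by
      rw [e]
      have h1 : (n₀ : ℝ) ≤ n := by exact_mod_cast hn
      have h2 := mul_le_mul_of_nonneg_right h1 hL.le
      have h3 := neg_abs_le (T L L A)
      linarith
    have h1 := hdg_L hr.tri (t_int hr ⟨A, hA⟩) (pos_amp h hr hH hH hH) (fun E hE => hdg_amp h hr hH E hE) L E hpos
    rw [e, e, e] at h1
    nlinarith [h1]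
  have := quad_np key
  linarith

theorem nn_one [CharZero k] [T0Space X.P] (h : Hyp X) (hr : RR T l c) {N A : Cart X} (hN : Nf N) (hA : Ample A)
    (P : PDiv X) {S : Cart X} (hS : SPr X P.η S) : 0 ≤ T N A S := nn_prm h hr hN hA P hS

/-- a prime divisor with `T N A S = 0` has `T N G S = 0` -/
theorem zero_prm [CharZero k] [T0Space X.P] (h : Hyp X) (hr : RR T l c) {N A : Cart X} (hN : Nf N) (hA : Ample A)
    (P : PDiv X) {S : Cart X} (hS : SPr X P.η S) (h0 : T N A S = 0) (G : Cart X) : T N G S = 0 := by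
  have key : ∀ B : Cart X, Ample B → T N B S = 0 := by
    intro B hB
    obtain ⟨n, hn⟩ := exists_amp h.var hA B⁻¹
    have h1 := nn_prm h hr hN (hn n le_rfl) P hS
    have h2 := nn_prm h hr hN hB P hS
    rw [hr.tri.add2, hr.tri.pow2, hr.tri.inv2, h0] at h1
    linarith
  obtain ⟨n, hn⟩ := exists_amp h.var hA G
  have h1 := key _ (hn n le_rfl)
  rw [hr.tri.add2, hr.tri.pow2, h0] at h1
  linarith

/-- light cone -/
theorem light [CharZero k] [T0Space X.P] (h : Hyp X) (hr : RR T l c) {N A W S : Cart X} (hN : Nf N)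
    (hA : 0 < T N A A) (hWW : T N W W = 0) (hWA : 0 < T N W A) (hSA : 0 < T N A S) (hSW : T N W S ≤ 0) :
    T N S S ≤ 0 := by
  by_contra hc
  push Not at hc
  have hi := t_int hr h.amp
  rcases lt_or_eq_of_le hSW with h1 | h1
  · obtain ⟨a, ha⟩ := hi N A S
    obtain ⟨w, hw⟩ := hi N W S
    have h2 := hdg_N h hr hN S (W ^ a * A ^ (-w)) hc
    have e1 : T N S (W ^ a * A ^ (-w)) = 0 := by
      rw [hr.tri.add3, hr.tri.zpow3, hr.tri.zpow3, hr.tri.s23 N S W, hr.tri.s23 N S A, hw, ha]
      push_cast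
      ring
    have e2 : T N (W ^ a * A ^ (-w)) (W ^ a * A ^ (-w)) = 2 * T N A S * (- T N W S) * T N W A + T N W S ^ 2 * T N A A := by
      simp only [hr.tri.add3, hr.tri.zpow3, hr.tri.add2, hr.tri.zpow2]
      rw [hr.tri.s23 N A W, hWW, hw, ha]
      push_cast
      ring
    rw [e1, e2] at h2
    have h3 : 0 < 2 * T N A S * (- T N W S) * T N W A := by
      have : 0 < - T N W S := by linarith
      positivity
    have h4 : 0 ≤ T N W S ^ 2 * T N A A := by positivity
    have h5 : 0 < T N S S * (2 * T N A S * (- T N W S) * T N W A + T N W S ^ 2 * T N A A) := mul_pos hc (by linarith)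
    have h6 : T N S S * (2 * T N A S * (- T N W S) * T N W A + T N W S ^ 2 * T N A A) ≤ 0 := by
      simpa using h2
    linarith
  · have key : ∀ n : ℕ, T N S S * (n * (2 * T N W A) + T N A A) ≤ T N A S ^ 2 := by
      intro n
      have h2 := hdg_N h hr hN S (W ^ n * A) hc
      have e1 : T N S (W ^ n * A) = T N A S := by
        rw [hr.tri.add3, hr.tri.pow3, hr.tri.s23 N S W, hr.tri.s23 N S A, h1]
        ring
      have e2 : T N (W ^ n * A) (W ^ n * A) = n * (2 * T N W A) + T N A A := by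
        simp only [hr.tri.add3, hr.tri.pow3, hr.tri.add2, hr.tri.pow2]
        rw [hr.tri.s23 N A W, hWW]
        ring
      rwa [e1, e2] at h2
    have h3 : 0 ≤ -(T N S S * (2 * T N W A)) := by
      refine lin_nn (a := T N A S ^ 2 - T N S S * T N A A) fun n => ?_
      have := key n
      nlinarith [this]
    have h4 : 0 < T N S S * (2 * T N W A) := by positivity
    linarith

/-- an effective class is a sum of primes -/
theorem eff_prm [CharZero k] [T0Space X.P] (h : Hyp X) (hr : RR T l c) {W : Cart X} (hW : 0 < h0 W 1) :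
    ∃ Ls : List (PDiv X × Cart X), (∀ p ∈ Ls, SPr X p.1.η p.2) ∧
      ∀ U V : Cart X, T U V W = (Ls.map fun p => T U V p.2).sum := by
  obtain ⟨s, hs0, hs⟩ := ex_sec hW
  have hE : Effective (W * prin X s hs0) := by
    intro x
    have h1 := hs x
    rw [pow_one] at h1
    change (W * prin X s hs0).eq x ∈ X.O x
    have e : (W * prin X s hs0).eq x = s * W.eq x := by
      rw [mul_comm s]
      rfl
    rw [e]
    exact h1
  obtain ⟨Ls, V₀, h1, h2, h3, h4⟩ := fac_eff h hr hE
  refine ⟨Ls, h1, fun U V => ?_⟩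
  have a1 : T U V (prin X s hs0) = 0 := by
    rw [hr.tri.s23, hr.tri.s12]
    exact numz_T h hr (numz_prin s hs0) _ _
  have a2 : T U V V₀ = 0 := by
    rw [hr.tri.s23, hr.tri.s12]
    exact triv_T h hr h2 h3 U V
  have a3 : ∀ L : List (PDiv X × Cart X), T U V (L.map Prod.snd).prod = (L.map fun p => T U V p.2).sum := by
    intro L
    induction L with
    | nil => simp [hr.tri.one3]
    | cons p L ih => rw [List.map_cons, List.prod_cons, List.map_cons, List.sum_cons, hr.tri.add3, ih]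
  have a4 : T U V (W * prin X s hs0) = T U V W := by rw [hr.tri.add3, a1, add_zero]
  rw [← a4, h4, hr.tri.add3, a2, add_zero, a3]

end Pool.Agent.H32.ZO
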